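import Mathlib

set_option autoImplicit false

/-!
# The linear algebra of the Harish-Chandra coordinates
-/

namespace Pool.Agent.N208.HA

open Matrix

variable {n m : Type} [Fintype n] [Fintype m] [DecidableEq n] [DecidableEq m]

/-- the tangent vectors: `N` is in the Lie algebra of `Sp(J)`, it maps `W` to `V` and annihilates `V` -/
structure Tan (J : Matrix n n ℂ) (W V : Matrix n m ℂ) (N : Matrix n n ℂ) : Prop where
  kills : N * V = 0
  maps : ∃ C : Matrix m m ℂ, N * W = V * C
  lie : N * J + J * Nᵀ = 0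

/-- the dual description of a decomposition -/
structure Dec (W V : Matrix n m ℂ) (R S : Matrix m n ℂ) : Prop where
  rw : R * W = 1
  rv : R * V = 0
  sum : W * R + V * S = 1

variable {J : Matrix n n ℂ} {W V : Matrix n m ℂ} {R S : Matrix m n ℂ} {N M : Matrix n n ℂ}

theorem Tan.eq (hN : Tan J W V N) (h : Dec W V R S) : N = N * W * R := by
  calc N = N * (W * R + V * S) := by rw [h.sum, Matrix.mul_one]
    _ = N * W * R + N * V * S := by rw [Matrix.mul_add, Matrix.mul_assoc, Matrix.mul_assoc]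
    _ = N * W * R := by rw [hN.kills, Matrix.zero_mul, add_zero]

theorem Tan.r_mul (hN : Tan J W V N) (h : Dec W V R S) : R * N = 0 := by
  obtain ⟨C, hC⟩ := hN.maps
  rw [hN.eq h, hC, ← Matrix.mul_assoc, ← Matrix.mul_assoc, h.rv, Matrix.zero_mul, Matrix.zero_mul]

theorem Tan.mul (hN : Tan J W V N) (hM : Tan J W V M) (h : Dec W V R S) : M * N = 0 := by
  obtain ⟨C, hC⟩ := hN.maps
  rw [hN.eq h, hC, ← Matrix.mul_assoc, ← Matrix.mul_assoc, hM.kills, Matrix.zero_mul, Matrix.zero_mul]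

theorem Tan.sub (hN : Tan J W V N) (hM : Tan J W V M) : Tan J W V (N - M) := by
  obtain ⟨C, hC⟩ := hN.maps
  obtain ⟨D, hD⟩ := hM.maps
  refine ⟨by rw [Matrix.sub_mul, hN.kills, hM.kills, sub_zero], ⟨C - D, ?_⟩, ?_⟩
  · rw [Matrix.sub_mul, hC, hD, Matrix.mul_sub]
  · rw [Matrix.sub_mul, Matrix.transpose_sub, Matrix.mul_sub]
    have h1 := hN.lie
    have h2 := hM.lie
    calc N * J - M * J + (J * Nᵀ - J * Mᵀ) = (N * J + J * Nᵀ) - (M * J + J * Mᵀ) := by abel
      _ = 0 := by rw [h1, h2, sub_zero]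

theorem Tan.symp (hM : Tan J W V M) (h : Dec W V R S) : (1 + M) * J * (1 + M)ᵀ = J := by
  have h1 : J * Mᵀ = -(M * J) := eq_neg_of_add_eq_zero_right hM.lie
  have h2 : M * M = 0 := hM.mul hM h
  rw [Matrix.transpose_add, Matrix.transpose_one, Matrix.mul_add, Matrix.mul_one, Matrix.add_mul, Matrix.one_mul,
    Matrix.add_mul, h1, Matrix.mul_assoc M J Mᵀ, h1, Matrix.mul_neg, ← Matrix.mul_assoc, h2, Matrix.zero_mul]
  abel

/-- the polynomial map with the value `det (R P) • N` -/
def G (R : Matrix m n ℂ) (W : Matrix n m ℂ) (P : Matrix n m ℂ) : Matrix n n ℂ :=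
  (P * (R * P).adjugate - (R * P).det • W) * R

theorem hc_inv {P : Matrix n m ℂ} {X : Matrix m m ℂ} (h : Dec W V R S) (hN : Tan J W V N)
    (hX : P * X = (1 + N) * W) : R * P * X = 1 := by
  rw [Matrix.mul_assoc, hX, ← Matrix.mul_assoc, Matrix.mul_add, Matrix.mul_one, hN.r_mul h, add_zero, h.rw]

theorem det_ne {P : Matrix n m ℂ} {X : Matrix m m ℂ} (h : Dec W V R S) (hN : Tan J W V N)
    (hX : P * X = (1 + N) * W) : (R * P).det ≠ 0 := by
  intro h0
  have h1 := congrArg Matrix.det (hc_inv h hN hX)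
  rw [Matrix.det_mul, h0, zero_mul, Matrix.det_one] at h1
  exact zero_ne_one h1

theorem G_eq {P : Matrix n m ℂ} {X : Matrix m m ℂ} (h : Dec W V R S) (hN : Tan J W V N)
    (hX : P * X = (1 + N) * W) : G R W P = (R * P).det • N := by
  have h1 := hc_inv h hN hX
  have h2 : (R * P).adjugate = (R * P).det • X := by
    calc (R * P).adjugate = (R * P).adjugate * (R * P * X) := by rw [h1, Matrix.mul_one]
      _ = ((R * P).adjugate * (R * P)) * X := (Matrix.mul_assoc _ _ _).symm
      _ = (R * P).det • X := by rw [Matrix.adjugate_mul, Matrix.smul_mul, Matrix.one_mul]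
  unfold G
  rw [h2, Matrix.mul_smul, hX, Matrix.add_mul, Matrix.one_mul, smul_add, add_sub_cancel_left, Matrix.smul_mul,
    ← hN.eq h]

/-- moving a point by a unipotent element -/
theorem move {P : Matrix n m ℂ} {X : Matrix m m ℂ} (h : Dec W V R S) {N' : Matrix n n ℂ} (hN : Tan J W V N)
    (hN' : Tan J W V N') (hX : P * X = (1 + N) * W) :
    (1 + (N' - N)) * P * X = (1 + N') * W := by
  have h1 : (N' - N) * N = 0 := hN.mul (hN'.sub hN) h
  rw [Matrix.mul_assoc, hX, ← Matrix.mul_assoc]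
  congr 1
  rw [Matrix.add_mul, Matrix.one_mul, Matrix.mul_add, Matrix.mul_one, h1, add_zero]
  abel

theorem move_r {P : Matrix n m ℂ} (h : Dec W V R S) {N' : Matrix n n ℂ} (hN : Tan J W V N)
    (hN' : Tan J W V N') : R * ((1 + (N' - N)) * P) = R * P := by
  rw [← Matrix.mul_assoc, Matrix.mul_add, Matrix.mul_one, (hN'.sub hN).r_mul h, add_zero]

end Pool.Agent.N208.HA
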