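import Mathlib

set_option autoImplicit false

/-!
# Polynomial functions and the form of relations used for few exceptions
-/

open NumberField

namespace Pool.Agent.N208.HA

/-- polynomial functions of the coordinates -/
def IsP {C : Type} (h : (C → ℂ) → ℂ) : Prop := ∃ p : MvPolynomial C ℂ, ∀ Y, h Y = MvPolynomial.eval Y p

variable {C : Type}

theorem IsP.const (c : ℂ) : IsP (fun _ : C → ℂ => c) := ⟨MvPolynomial.C c, fun Y => by simp⟩

theorem IsP.coord (y : C) : IsP (fun Y : C → ℂ => Y y) := ⟨MvPolynomial.X y, fun Y => by simp⟩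

theorem IsP.add {h k : (C → ℂ) → ℂ} (hh : IsP h) (hk : IsP k) : IsP (fun Y => h Y + k Y) := by
  obtain ⟨p, hp⟩ := hh
  obtain ⟨q, hq⟩ := hk
  exact ⟨p + q, fun Y => by show h Y + k Y = _; rw [map_add, hp, hq]⟩

theorem IsP.sub {h k : (C → ℂ) → ℂ} (hh : IsP h) (hk : IsP k) : IsP (fun Y => h Y - k Y) := by
  obtain ⟨p, hp⟩ := hh
  obtain ⟨q, hq⟩ := hk
  exact ⟨p - q, fun Y => by show h Y - k Y = _; rw [map_sub, hp, hq]⟩

theorem IsP.mul {h k : (C → ℂ) → ℂ} (hh : IsP h) (hk : IsP k) : IsP (fun Y => h Y * k Y) := by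
  obtain ⟨p, hp⟩ := hh
  obtain ⟨q, hq⟩ := hk
  exact ⟨p * q, fun Y => by show h Y * k Y = _; rw [map_mul, hp, hq]⟩

theorem IsP.sum {ι : Type} (s : Finset ι) {h : ι → (C → ℂ) → ℂ} (hh : ∀ i, IsP (h i)) :
    IsP (fun Y => ∑ i ∈ s, h i Y) := by
  choose p hp using hh
  exact ⟨∑ i ∈ s, p i, fun Y => by rw [map_sum]; exact Finset.sum_congr rfl fun i _ => hp i Y⟩

theorem IsP.prod {ι : Type} (s : Finset ι) {h : ι → (C → ℂ) → ℂ} (hh : ∀ i, IsP (h i)) :
    IsP (fun Y => ∏ i ∈ s, h i Y) := by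
  choose p hp using hh
  exact ⟨∏ i ∈ s, p i, fun Y => by rw [map_prod]; exact Finset.prod_congr rfl fun i _ => hp i Y⟩

/-- matrices of polynomial functions -/
def IsPM {C m n : Type} (H : (C → ℂ) → Matrix m n ℂ) : Prop := ∀ i j, IsP (fun Y => H Y i j)

theorem IsPM.const {m n : Type} (A : Matrix m n ℂ) : IsPM (fun _ : C → ℂ => A) := fun i j => IsP.const (A i j)

theorem IsPM.mul {l m n : Type} [Fintype m] {A : (C → ℂ) → Matrix l m ℂ} {B : (C → ℂ) → Matrix m n ℂ}
    (hA : IsPM A) (hB : IsPM B) : IsPM (fun Y => A Y * B Y) := by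
  intro i j
  simp only [Matrix.mul_apply]
  exact IsP.sum _ fun k => (hA i k).mul (hB k j)

theorem IsPM.sub {m n : Type} {A B : (C → ℂ) → Matrix m n ℂ}
    (hA : IsPM A) (hB : IsPM B) : IsPM (fun Y => A Y - B Y) := by
  intro i j
  simp only [Matrix.sub_apply]
  exact (hA i j).sub (hB i j)

theorem IsPM.smul {m n : Type} {h : (C → ℂ) → ℂ} {A : (C → ℂ) → Matrix m n ℂ}
    (hh : IsP h) (hA : IsPM A) : IsPM (fun Y => h Y • A Y) := by
  intro i j
  simp only [Matrix.smul_apply, smul_eq_mul]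
  exact hh.mul (hA i j)

theorem IsPM.det {n : Type} [Fintype n] [DecidableEq n] {A : (C → ℂ) → Matrix n n ℂ} (hA : IsPM A) :
    IsP (fun Y => (A Y).det) := by
  simp only [Matrix.det_apply']
  exact IsP.sum _ fun σ => (IsP.const _).mul (IsP.prod _ fun i => hA (σ i) i)

theorem IsPM.adjugate {n : Type} [Fintype n] [DecidableEq n] {A : (C → ℂ) → Matrix n n ℂ} (hA : IsPM A) :
    IsPM (fun Y => (A Y).adjugate) := by
  intro i j
  simp only [Matrix.adjugate_apply]
  refine IsPM.det (A := fun Y => (A Y).updateRow j (Pi.single i 1)) fun a b => ?_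
  by_cases hab : a = j
  · subst hab
    simp only [Matrix.updateRow_self]
    exact IsP.const _
  · simp only [Matrix.updateRow_ne hab]
    exact hA a b

/-- the value of the polynomial with the coefficients `∑ a, w a * c l a` -/
noncomputable def val {C : Type} [Fintype C] [DecidableEq C] {k : ℕ} (c : (C → Fin (k + 1)) → Fin k → ℂ) (w : Fin k → ℂ)
    (Y : C → ℂ) : ℂ :=
  ∑ l : C → Fin (k + 1), (∑ a, w a * c l a) * ∏ y : C, Y y ^ (l y : ℕ)

theorem exists_val {C : Type} [Fintype C] [DecidableEq C] {N : ℕ} (p : Fin N → MvPolynomial C ℂ) :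
    ∃ k₀ : ℕ, ∀ k, k₀ ≤ k → ∃ w : Fin k → ℂ, ∀ (K : Type) [Field K] [NumberField K] (io : K →+* ℂ)
      (c : Fin N → 𝓞 K), ∃ c' : (C → Fin (k + 1)) → Fin k → 𝓞 K, (∀ l a, c' l a = 0 ∨ ∃ j, c' l a = c j) ∧
        ∀ Y, val (fun l a => io (c' l a : K)) w Y = ∑ j, io (c j : K) * MvPolynomial.eval Y (p j) := by
  classical
  let S : Finset (C →₀ ℕ) := Finset.univ.biUnion fun j => (p j).support
  let d : ℕ := ∑ m ∈ S, ∑ y, m y
  have hd : ∀ m ∈ S, ∀ y, m y ≤ d := by
    intro m hm y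
    exact (Finset.single_le_sum (f := fun y => m y) (fun _ _ => Nat.zero_le _) (Finset.mem_univ y)).trans
      (Finset.single_le_sum (f := fun m => ∑ y, m y) (fun _ _ => Nat.zero_le _) hm)
  let M : ℕ := Fintype.card (Fin N × S)
  let e : Fin N × S ≃ Fin M := Fintype.equivFin _
  refine ⟨max M d, fun k hk => ?_⟩
  have hM : M ≤ k := (le_max_left _ _).trans hk
  have hdk : d ≤ k := (le_max_right _ _).trans hk
  let g : Fin N × S → Fin k := fun x => Fin.castLE hM (e x)
  have hg : Function.Injective g := fun x y h => e.injective (Fin.castLE_injective hM h)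
  refine ⟨Function.extend g (fun x => MvPolynomial.coeff (x.2 : C →₀ ℕ) (p x.1)) 0, fun K _ _ io c => ?_⟩
  refine ⟨fun l => Function.extend g (fun x => if ∀ y, (l y : ℕ) = (x.2 : C →₀ ℕ) y then c x.1 else 0) 0, ?_, ?_⟩
  · intro l a
    beta_reduce
    by_cases ha : ∃ x, g x = a
    · obtain ⟨x, rfl⟩ := ha
      rw [hg.extend_apply]
      split_ifs
      · exact Or.inr ⟨_, rfl⟩
      · exact Or.inl rfl
    · rw [Function.extend_apply' _ _ _ ha]
      exact Or.inl rfl
  · intro Y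
    unfold val
    have h1 : ∀ l : C → Fin (k + 1), (∑ a, (Function.extend g (fun x => MvPolynomial.coeff (x.2 : C →₀ ℕ) (p x.1)) 0 :
        Fin k → ℂ) a * io ((Function.extend g (fun x => if ∀ y, (l y : ℕ) = (x.2 : C →₀ ℕ) y then c x.1 else 0) 0 :
          Fin k → 𝓞 K) a : K)) =
        ∑ x : Fin N × S, MvPolynomial.coeff (x.2 : C →₀ ℕ) (p x.1) *
          (if ∀ y, (l y : ℕ) = (x.2 : C →₀ ℕ) y then io (c x.1 : K) else 0) := by
      intro l
      symm
      refine Fintype.sum_of_injective g hg _ _ ?_ ?_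
      · intro a ha
        have ha' : ¬ ∃ x, g x = a := fun ⟨x, hx⟩ => ha ⟨x, hx⟩
        rw [Function.extend_apply' _ _ _ ha', Pi.zero_apply, zero_mul]
      · intro x
        rw [hg.extend_apply, hg.extend_apply]
        congr 1
        split_ifs
        · rfl
        · simp
    simp only [h1, Finset.sum_mul]
    rw [Finset.sum_comm]
    have h2 : ∀ x : Fin N × S, ∑ l : C → Fin (k + 1), MvPolynomial.coeff (x.2 : C →₀ ℕ) (p x.1) *
        (if ∀ y, (l y : ℕ) = (x.2 : C →₀ ℕ) y then io (c x.1 : K) else 0) * ∏ y : C, Y y ^ (l y : ℕ) =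
        io (c x.1 : K) * (MvPolynomial.coeff (x.2 : C →₀ ℕ) (p x.1) * ∏ y, Y y ^ ((x.2 : C →₀ ℕ) y)) := by
      intro x
      let l₀ : C → Fin (k + 1) := fun y => ⟨(x.2 : C →₀ ℕ) y, by have := hd _ x.2.2 y; omega⟩
      rw [Finset.sum_eq_single l₀]
      · rw [if_pos fun y => rfl]
        show _ * _ * ∏ y : C, Y y ^ ((x.2 : C →₀ ℕ) y) = _
        ring
      · intro l _ hl
        rw [if_neg, mul_zero, zero_mul]
        intro h3
        exact hl (funext fun y => Fin.ext (h3 y))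
      · intro h3
        exact absurd (Finset.mem_univ _) h3
    rw [Finset.sum_congr rfl fun x _ => h2 x, Fintype.sum_prod_type]
    refine Finset.sum_congr rfl fun j _ => ?_
    dsimp only
    rw [← Finset.mul_sum]
    congr 1
    rw [MvPolynomial.eval_eq']
    have h3 : ∑ y : S, MvPolynomial.coeff (y : C →₀ ℕ) (p j) * ∏ z, Y z ^ ((y : C →₀ ℕ) z) =
        ∑ m ∈ S, MvPolynomial.coeff m (p j) * ∏ z, Y z ^ (m z) :=
      Finset.sum_coe_sort S fun m => MvPolynomial.coeff m (p j) * ∏ z, Y z ^ (m z)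
    rw [h3]
    symm
    refine Finset.sum_subset (fun m hm => Finset.mem_biUnion.2 ⟨j, Finset.mem_univ _, hm⟩) ?_
    intro m _ hm
    rw [MvPolynomial.notMem_support_iff.1 hm, zero_mul]

end Pool.Agent.N208.HA
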