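import Pool.Agent.N207.UH.Main
import Pool.Agent.N208.HA.Poly
import Pool.Agent.N208.HA.Lin

set_option autoImplicit false
set_option linter.unusedSectionVars false

/-!
# Linear equations for the Harish-Chandra coordinates of hyperelliptic Jacobians
-/

open Matrix NumberField

namespace Pool.Agent.N208.HA

open Pool.Agent.N207.UH
open Pool.Agent.Y118.HP (qm jm)

variable {ι : Type}

theorem gle (g : ℕ) : g ≤ 2 * g := by omega

/-- the columns of the differentials of the first kind, in another basis of the cycles -/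
def P1 {g : ι → ℕ} (L : ∀ i, Matrix (Fin (2 * g i)) (Fin (2 * g i)) ℂ)
    (Y : Crd (fun i => 2 * g i) (fun _ => 0) → ℂ) (i : ι) : Matrix (Fin (2 * g i)) (Fin (g i)) ℂ :=
  L i * (pmat Y i).submatrix id (Fin.castLE (gle (g i)))

variable [Fintype ι] [DecidableEq ι]

theorem lin_exp {g : ι → ℕ} (f : (∀ i, Matrix (Fin (2 * g i)) (Fin (2 * g i)) ℂ) →ₗ[ℂ] ℂ)
    (N : ∀ i, Matrix (Fin (2 * g i)) (Fin (2 * g i)) ℂ) :
    f N = ∑ i, ∑ p, ∑ q, N i p q * f (Pi.single i (Matrix.single p q 1)) := by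
  have h1 : N = ∑ i, ∑ p, ∑ q, N i p q • (Pi.single i (Matrix.single p q (1 : ℂ)) :
      ∀ i, Matrix (Fin (2 * g i)) (Fin (2 * g i)) ℂ) := by
    have h2 : ∀ i, (Pi.single i (N i) : ∀ i, Matrix (Fin (2 * g i)) (Fin (2 * g i)) ℂ) =
        ∑ p, ∑ q, N i p q • (Pi.single i (Matrix.single p q (1 : ℂ)) :
          ∀ i, Matrix (Fin (2 * g i)) (Fin (2 * g i)) ℂ) := by
      intro i
      have h3 : N i = ∑ p, ∑ q, N i p q • (Matrix.single p q (1 : ℂ) : Matrix (Fin (2 * g i)) (Fin (2 * g i)) ℂ) := by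
        conv_lhs => rw [Matrix.matrix_eq_sum_single (N i)]
        refine Finset.sum_congr rfl fun p _ => Finset.sum_congr rfl fun q _ => ?_
        rw [Matrix.smul_single, smul_eq_mul, mul_one]
      conv_lhs => rw [h3]
      have h4 : ∀ A : Matrix (Fin (2 * g i)) (Fin (2 * g i)) ℂ,
          (Pi.single i A : ∀ i, Matrix (Fin (2 * g i)) (Fin (2 * g i)) ℂ) =
            LinearMap.single ℂ (fun i => Matrix (Fin (2 * g i)) (Fin (2 * g i)) ℂ) i A := fun A => rfl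
      rw [h4, map_sum]
      refine Finset.sum_congr rfl fun p _ => ?_
      rw [map_sum]
      refine Finset.sum_congr rfl fun q _ => ?_
      rw [map_smul]
      rfl
    rw [← Finset.sum_congr rfl fun i _ => h2 i]
    exact (Finset.univ_sum_single N).symm
  conv_lhs => rw [h1]
  rw [map_sum]
  refine Finset.sum_congr rfl fun i _ => ?_
  rw [map_sum]
  refine Finset.sum_congr rfl fun p _ => ?_
  rw [map_sum]
  refine Finset.sum_congr rfl fun q _ => ?_
  rw [map_smul, smul_eq_mul]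

/-- the polynomial map with the value `D • N` -/
noncomputable def HH {g : ι → ℕ} (L : ∀ i, Matrix (Fin (2 * g i)) (Fin (2 * g i)) ℂ)
    (R : ∀ i, Matrix (Fin (g i)) (Fin (2 * g i)) ℂ)
    (W : ∀ i, Matrix (Fin (2 * g i)) (Fin (g i)) ℂ)
    (Y : Crd (fun i => 2 * g i) (fun _ => 0) → ℂ) : ∀ i, Matrix (Fin (2 * g i)) (Fin (2 * g i)) ℂ :=
  fun i => (∏ j ∈ Finset.univ.erase i, (R j * P1 L Y j).det) • G (R i) (W i) (P1 L Y i)

theorem isPM_P1 {g : ι → ℕ} (L : ∀ i, Matrix (Fin (2 * g i)) (Fin (2 * g i)) ℂ) (i : ι) :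
    IsPM (fun Y : Crd (fun i => 2 * g i) (fun _ => 0) → ℂ => P1 L Y i) :=
  (IsPM.const (L i)).mul fun a b =>
    IsP.coord (⟨i, Sum.inl (a, Fin.castLE (gle (g i)) b)⟩ : Crd (fun i => 2 * g i) (fun _ => 0))

theorem isPM_HH {g : ι → ℕ} (L : ∀ i, Matrix (Fin (2 * g i)) (Fin (2 * g i)) ℂ)
    (R : ∀ i, Matrix (Fin (g i)) (Fin (2 * g i)) ℂ)
    (W : ∀ i, Matrix (Fin (2 * g i)) (Fin (g i)) ℂ) (i : ι) : IsPM (fun Y => HH L R W Y i) := by
  have h1 : ∀ j, IsPM (fun Y : Crd (fun i => 2 * g i) (fun _ => 0) → ℂ => R j * P1 L Y j) := fun j =>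
    (IsPM.const (R j)).mul (isPM_P1 L j)
  refine IsPM.smul (IsP.prod _ fun j => (h1 j).det) ?_
  exact (IsPM.sub ((isPM_P1 L i).mul (h1 i).adjugate) (IsPM.smul (h1 i).det (IsPM.const (W i)))).mul (IsPM.const (R i))

theorem isP_f {g : ι → ℕ} (L : ∀ i, Matrix (Fin (2 * g i)) (Fin (2 * g i)) ℂ)
    (R : ∀ i, Matrix (Fin (g i)) (Fin (2 * g i)) ℂ)
    (W : ∀ i, Matrix (Fin (2 * g i)) (Fin (g i)) ℂ)
    (f : (∀ i, Matrix (Fin (2 * g i)) (Fin (2 * g i)) ℂ) →ₗ[ℂ] ℂ) : IsP (fun Y => f (HH L R W Y)) := by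
  have h1 : (fun Y => f (HH L R W Y)) =
      fun Y => ∑ i, ∑ p, ∑ q, HH L R W Y i p q * f (Pi.single i (Matrix.single p q 1)) :=
    funext fun Y => lin_exp f _
  rw [h1]
  exact IsP.sum _ fun i => IsP.sum _ fun p => IsP.sum _ fun q => (isPM_HH L R W i p q).mul (IsP.const _)

theorem HH_eq {g : ι → ℕ} (L : ∀ i, Matrix (Fin (2 * g i)) (Fin (2 * g i)) ℂ)
    {W V : ∀ i, Matrix (Fin (2 * g i)) (Fin (g i)) ℂ}
    {R S : ∀ i, Matrix (Fin (g i)) (Fin (2 * g i)) ℂ} (hdec : ∀ i, Dec (W i) (V i) (R i) (S i))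
    {J : ∀ i, Matrix (Fin (2 * g i)) (Fin (2 * g i)) ℂ}
    {N : ∀ i, Matrix (Fin (2 * g i)) (Fin (2 * g i)) ℂ} (hN : ∀ i, Tan (J i) (W i) (V i) (N i))
    {Y : Crd (fun i => 2 * g i) (fun _ => 0) → ℂ} 
    (hY : ∀ i, ∃ X : Matrix (Fin (g i)) (Fin (g i)) ℂ, P1 L Y i * X = (1 + N i) * W i) :
    HH L R W Y = ((∏ j, (R j * P1 L Y j).det : ℂ)) • N := by
  funext i
  obtain ⟨X, hX⟩ := hY i
  show (∏ j ∈ Finset.univ.erase i, (R j * P1 L Y j).det) • G (R i) (W i) (P1 L Y i) =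
    (∏ j, (R j * P1 L Y j).det : ℂ) • N i
  rw [G_eq (hdec i) (hN i) hX, smul_smul, Finset.prod_erase_mul _ _ (Finset.mem_univ i)]

/-- the combination of the tangent vectors `b j` -/
noncomputable def comb {g : ι → ℕ} {d : ℕ} (b : Fin d → ∀ i, Matrix (Fin (2 * g i)) (Fin (2 * g i)) ℂ) (x : Fin d → ℂ)
    (i : ι) : Matrix (Fin (2 * g i)) (Fin (2 * g i)) ℂ :=
  ∑ j, x j • b j i

omit [Fintype ι] [DecidableEq ι] in
theorem comb_eq {g : ι → ℕ} {d : ℕ} (b : Fin d → ∀ i, Matrix (Fin (2 * g i)) (Fin (2 * g i)) ℂ) (x : Fin d → ℂ) :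
    comb b x = Fintype.linearCombination ℂ b x := by
  funext i
  rw [Fintype.linearCombination_apply, Finset.sum_apply]
  rfl

/-- **The main point.** If the relations over `K` between the periods are those of the torsor then the coordinate `N`
satisfies no linear equation over `K`. -/
theorem core {g : ι → ℕ} {W V : ∀ i, Matrix (Fin (2 * g i)) (Fin (g i)) ℂ}
    {R S : ∀ i, Matrix (Fin (g i)) (Fin (2 * g i)) ℂ} (hdec : ∀ i, Dec (W i) (V i) (R i) (S i))
    (L L' J : ∀ i, Matrix (Fin (2 * g i)) (Fin (2 * g i)) ℂ) (hL : ∀ i, L' i * L i = 1) (a₀ : ℂ)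
    (hJ : ∀ i, L i * jm ℂ (2 * g i) * (L i)ᵀ = a₀ • J i)
    {d : ℕ} (b : Fin d → ∀ i, Matrix (Fin (2 * g i)) (Fin (2 * g i)) ℂ)
    (hT : ∀ x i, Tan (J i) (W i) (V i) (comb b x i)) (hb : Function.Injective (comb b)) :
    ∃ k₀ : ℕ, ∀ k, k₀ ≤ k → ∃ ξ : Fin k → ℂ, ∀ (K : Type) [Field K] [NumberField K] (io : K →+* ℂ) (t : ℝ), 0 ≤ t →
      ∀ x ∈ Conf (fun i => 2 * g i) (fun _ => 0),
        Generic (fun i => 2 * g i) (fun _ => 0) k K io ξ t x →
        ∀ z : Fin d → ℂ, (∀ i, ∃ X : Matrix (Fin (g i)) (Fin (g i)) ℂ,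
            P1 L (num (fun i => 2 * g i) (fun _ => 0) x) i * X = (1 + comb b z i) * W i) →
          ∀ c : Fin d → 𝓞 K, (∀ j (φ : K →+* ℂ), ‖φ (c j : K)‖ ≤ t ^ k) →
            ∑ j, io (c j : K) * z j = 0 → c = 0 := by
  classical
  have hker : LinearMap.ker (Fintype.linearCombination ℂ b) = ⊥ := by
    rw [LinearMap.ker_eq_bot]
    intro x y hxy
    apply hb
    rw [comb_eq, comb_eq]
    exact hxy
  obtain ⟨G', hG'⟩ := LinearMap.exists_leftInverse_of_injective _ hker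
  let f : Fin d → (∀ i, Matrix (Fin (2 * g i)) (Fin (2 * g i)) ℂ) →ₗ[ℂ] ℂ := fun j => (LinearMap.proj j) ∘ₗ G'
  have hfN : ∀ j (z : Fin d → ℂ), f j (comb b z) = z j := by
    intro j z
    rw [comb_eq]
    exact congrFun (LinearMap.congr_fun hG' z) j
  have hp : ∀ j, ∃ p : MvPolynomial (Crd (fun i => 2 * g i) (fun _ => 0)) ℂ, ∀ Y, f j (HH L R W Y) =
      MvPolynomial.eval Y p := fun j => isP_f L R W (f j)
  choose p hp using hp
  obtain ⟨k₀, hk₀⟩ := exists_val p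
  refine ⟨k₀, fun k hk => ?_⟩
  obtain ⟨ξ, hξ⟩ := hk₀ k hk
  refine ⟨ξ, fun K _ _ io t ht x hx hgen z hN c hc h0 => ?_⟩
  obtain ⟨c', hc1, hc2⟩ := hξ K io c
  have hpoly : ∀ Y, poly (fun i => 2 * g i) (fun _ => 0) (fun l a => io (c' l a : K)) ξ Y =
      ∑ j, io (c j : K) * f j (HH L R W Y) := by
    intro Y
    have h1 : poly (fun i => 2 * g i) (fun _ => 0) (fun l a => io (c' l a : K)) ξ Y =
        val (fun l a => io (c' l a : K)) ξ Y := by
      unfold poly val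
      rfl
    rw [h1, hc2]
    exact Finset.sum_congr rfl fun j _ => by rw [hp]
  have hN' : ∀ i, Tan (J i) (W i) (V i) (comb b z i) := hT z
  set P := num (fun i => 2 * g i) (fun _ => 0) x with hP
  set D : ℂ := ∏ j, (R j * P1 L P j).det with hD
  have hD0 : D ≠ 0 := by
    refine Finset.prod_ne_zero_iff.2 fun j _ => ?_
    obtain ⟨X, hX⟩ := hN j
    exact det_ne (hdec j) (hN' j) hX
  have hrel : ∀ (M : Fin d → ℂ) (Y : Crd (fun i => 2 * g i) (fun _ => 0) → ℂ), HH L R W Y = D • comb b M →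
      poly (fun i => 2 * g i) (fun _ => 0) (fun l a => io (c' l a : K)) ξ Y =
        D * ∑ j, io (c j : K) * M j := by
    intro M Y hM
    rw [hpoly, Finset.mul_sum]
    refine Finset.sum_congr rfl fun j _ => ?_
    rw [hM, map_smul, hfN, smul_eq_mul]
    ring
  have h1 : poly (fun i => 2 * g i) (fun _ => 0) (fun l a => io (c' l a : K)) ξ P = 0 := by
    rw [hrel z P (HH_eq L hdec hN' hN), h0, mul_zero]
  have h2 := (hgen c' (fun l a φ => by
    rcases hc1 l a with h | ⟨j, h⟩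
    · rw [h]
      simp only [map_zero, norm_zero]
      positivity
    · rw [h]
      exact hc j φ)).1 h1
  have hmem := num_mem (n := fun i => 2 * g i) (m := fun _ => 0) (fun i => even_two_mul (g i)) hx
  have key : ∀ M : Fin d → ℂ, ∑ j, io (c j : K) * M j = 0 := by
    intro M
    have hM' : ∀ i, Tan (J i) (W i) (V i) (comb b M i) := hT M
    let Y : Crd (fun i => 2 * g i) (fun _ => 0) → ℂ := fun q => match q with
      | ⟨i, Sum.inl (a, c)⟩ => (L' i * ((1 + (comb b M i - comb b z i)) * (L i * pmat P i))) a c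
      | ⟨i, Sum.inr r⟩ => P ⟨i, Sum.inr r⟩
    have hLL : ∀ i, L i * L' i = 1 := fun i => mul_eq_one_comm.1 (hL i)
    have hYm : ∀ i, pmat Y i = L' i * ((1 + (comb b M i - comb b z i)) * (L i * pmat P i)) := fun i => rfl
    have hY1 : ∀ i, P1 L Y i = (1 + (comb b M i - comb b z i)) * P1 L P i := by
      intro i
      have h3 : ∀ (A B : Matrix (Fin (2 * g i)) (Fin (2 * g i)) ℂ),
          (A * B).submatrix id (Fin.castLE (gle (g i))) = A * B.submatrix id (Fin.castLE (gle (g i))) := by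
        intro A B
        ext a c
        simp only [Matrix.submatrix_apply, Matrix.mul_apply, id]
      unfold P1
      rw [hYm, h3, h3, h3, ← Matrix.mul_assoc, hLL, Matrix.one_mul]
    have hYt : (Y, (Real.pi : ℂ)) ∈ torsor (fun i => 2 * g i) (fun _ => 0) x := by
      refine ⟨hmem.1, fun i => ?_⟩
      have h3 := hmem.2 i
      have h4 := ((hM' i).sub (hN' i)).symp (hdec i)
      show pmat Y i * _ * (pmat Y i).transpose = _
      set Q := qm (2 * g i) (∏ r : Fin (2 * g i + 1), (Polynomial.X - Polynomial.C (x ⟨i, Sum.inl r⟩))) with hQ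
      have h3' : pmat P i * Q * (pmat P i)ᵀ = (Real.pi : ℂ) • jm ℂ (2 * g i) := h3
      set u := 1 + (comb b M i - comb b z i) with hu
      rw [hYm, Matrix.transpose_mul, Matrix.transpose_mul, Matrix.transpose_mul]
      have h5 : L' i * (L i * jm ℂ (2 * g i) * (L i)ᵀ) * (L' i)ᵀ = jm ℂ (2 * g i) := by
        have h6 : (L i)ᵀ * (L' i)ᵀ = 1 := by rw [← Matrix.transpose_mul, hL, Matrix.transpose_one]
        calc L' i * (L i * jm ℂ (2 * g i) * (L i)ᵀ) * (L' i)ᵀ =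
              (L' i * L i) * jm ℂ (2 * g i) * ((L i)ᵀ * (L' i)ᵀ) := by simp only [Matrix.mul_assoc]
          _ = jm ℂ (2 * g i) := by rw [hL, h6, Matrix.one_mul, Matrix.mul_one]
      calc L' i * (u * (L i * pmat P i)) * Q * ((pmat P i)ᵀ * (L i)ᵀ * uᵀ * (L' i)ᵀ) =
            L' i * (u * (L i * (pmat P i * Q * (pmat P i)ᵀ) * (L i)ᵀ) * uᵀ) * (L' i)ᵀ := by
            simp only [Matrix.mul_assoc]
        _ = L' i * (u * ((Real.pi : ℂ) • (a₀ • J i)) * uᵀ) * (L' i)ᵀ := by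
            rw [h3', Matrix.mul_smul, Matrix.smul_mul, hJ]
        _ = (Real.pi : ℂ) • (L' i * (a₀ • J i) * (L' i)ᵀ) := by
            have h7 : u * (a₀ • J i) * uᵀ = a₀ • J i := by rw [Matrix.mul_smul, Matrix.smul_mul, h4]
            rw [Matrix.mul_smul u, Matrix.smul_mul, h7, Matrix.mul_smul, Matrix.smul_mul]
        _ = (Real.pi : ℂ) • jm ℂ (2 * g i) := by rw [← hJ, h5]
    have hYX : ∀ i, ∃ X : Matrix (Fin (g i)) (Fin (g i)) ℂ, P1 L Y i * X = (1 + comb b M i) * W i := by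
      intro i
      obtain ⟨X, hX⟩ := hN i
      exact ⟨X, by rw [hY1]; exact move (hdec i) (hN' i) (hM' i) hX⟩
    have hDY : ∏ j, (R j * P1 L Y j).det = D := by
      refine Finset.prod_congr rfl fun j _ => ?_
      rw [hY1, move_r (hdec j) (hN' j) (hM' j)]
    have h5 := HH_eq L hdec hM' hYX
    rw [hDY] at h5
    have h6 := h2 Y hYt
    rw [hrel M Y h5] at h6
    exact (mul_eq_zero.1 h6).resolve_left hD0
  funext j
  have h7 := key (Pi.single j 1)
  rw [Finset.sum_eq_single j] at h7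
  · rw [Pi.single_eq_same, mul_one] at h7
    have h8 : ((c j : 𝓞 K) : K) = 0 := by
      rwa [map_eq_zero] at h7
    rw [Pi.zero_apply]
    exact RingOfIntegers.coe_eq_zero_iff.1 h8
  · intro i _ hi
    rw [Pi.single_eq_of_ne hi, mul_zero]
  · intro h
    exact absurd (Finset.mem_univ _) h

end Pool.Agent.N208.HA
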