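import Pool.Agent.N208.HA.Lin

set_option autoImplicit false

/-!
# Decompositions given by bases
-/

namespace Pool.Agent.N208.HA

open Module

theorem repr_sum {n : ℕ} {σ : Type} (b : Basis σ ℂ (Fin n → ℂ)) (s : σ) (v : Fin n → ℂ) :
    ∑ i, b.repr (Pi.single i 1) s * v i = b.repr v s := by
  have h1 : v = ∑ i, v i • (Pi.single i 1 : Fin n → ℂ) := by
    funext k
    rw [Finset.sum_apply, Finset.sum_eq_single k]
    · simp
    · intro i _ hi
      simp [Pi.single_eq_of_ne (Ne.symm hi)]
    · intro h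
      exact absurd (Finset.mem_univ _) h
  conv_rhs => rw [h1, map_sum, Finsupp.finset_sum_apply]
  refine Finset.sum_congr rfl fun i _ => ?_
  rw [map_smul, Finsupp.smul_apply, smul_eq_mul, mul_comm]

theorem exists_dec {g : ℕ} (W V : Matrix (Fin (2 * g)) (Fin g) ℂ)
    (h : LinearIndependent ℂ (Sum.elim (fun (j : Fin g) (i : Fin (2 * g)) => W i j) (fun j i => V i j))) :
    ∃ R S, Dec W V R S := by
  have hcard : Fintype.card (Fin g ⊕ Fin g) = finrank ℂ (Fin (2 * g) → ℂ) := by
    rw [Module.finrank_fin_fun, Fintype.card_sum, Fintype.card_fin]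
    ring
  let b : Basis (Fin g ⊕ Fin g) ℂ (Fin (2 * g) → ℂ) := Basis.mk h (h.span_eq_top_of_card_eq_finrank' hcard).ge
  have hb1 : ∀ j, b (Sum.inl j) = fun i => W i j := fun j => Basis.mk_apply _ _ _
  have hb2 : ∀ j, b (Sum.inr j) = fun i => V i j := fun j => Basis.mk_apply _ _ _
  refine ⟨Matrix.of fun j i => b.repr (Pi.single i 1) (Sum.inl j),
    Matrix.of fun j i => b.repr (Pi.single i 1) (Sum.inr j), ?_, ?_, ?_⟩
  · ext j k
    rw [Matrix.mul_apply]
    have h1 := repr_sum b (Sum.inl j) (b (Sum.inl k))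
    rw [b.repr_self, hb1 k] at h1
    refine h1.trans ?_
    rw [Matrix.one_apply, Finsupp.single_apply]
    simp only [Sum.inl.injEq, eq_comm]
  · ext j k
    rw [Matrix.mul_apply]
    have h1 := repr_sum b (Sum.inl j) (b (Sum.inr k))
    rw [b.repr_self, hb2 k] at h1
    refine h1.trans ?_
    rw [Matrix.zero_apply, Finsupp.single_apply, if_neg (by simp)]
  · ext i k
    have h1 := congrFun (b.sum_repr (Pi.single k 1)) i
    rw [Fintype.sum_sum_type] at h1
    simp only [hb1, hb2, Pi.add_apply, Finset.sum_apply, Pi.smul_apply, smul_eq_mul] at h1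
    rw [Matrix.add_apply, Matrix.mul_apply, Matrix.mul_apply, Matrix.one_apply]
    simp only [Matrix.of_apply]
    have h3 : (Pi.single k (1 : ℂ) : Fin (2 * g) → ℂ) i = if i = k then 1 else 0 := Pi.single_apply _ _ _
    rw [← h3, ← h1]
    congr 1 <;> exact Finset.sum_congr rfl fun j _ => mul_comm _ _

end Pool.Agent.N208.HA
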